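import Pool.Agent.Helper97.CG.Stmts

set_option autoImplicit false

/-!
# Row DIAG: diagonalisation of hermitian matrices
-/

namespace Pool.Agent.Helper19.CG

open Matrix Pool.Agent.Helper97.CG

universe u

section

variable {L : Type u} [Field L] (θ : L ≃+* L)

/-- `H` is congruent to a diagonal matrix. -/
def Dg {n : Type} [Fintype n] [DecidableEq n] (H : Matrix n n L) : Prop :=
  ∃ (E : Matrix n n L) (D : n → L), E.det ≠ 0 ∧ Eᵀ * H * E.map θ = diagonal D

variable {θ}

lemma Dg.of_cong {n : Type} [Fintype n] [DecidableEq n] {H : Matrix n n L} (E1 : Matrix n n L)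
    (h : E1.det ≠ 0) (hd : Dg θ (E1ᵀ * H * E1.map θ)) : Dg θ H := by
  obtain ⟨E, D, hE, h1⟩ := hd
  refine ⟨E1 * E, D, ?_, ?_⟩
  · rw [det_mul]; exact mul_ne_zero h hE
  · rw [transpose_mul, Matrix.map_mul, ← h1]; simp only [Matrix.mul_assoc]

lemma Dg.of_submatrix {n m : Type} [Fintype n] [DecidableEq n] [Fintype m] [DecidableEq m]
    (e : m ≃ n) {H : Matrix n n L} (hd : Dg θ (H.submatrix e e)) : Dg θ H := by
  obtain ⟨E, D, hE, h1⟩ := hd
  refine ⟨E.submatrix e.symm e.symm, D ∘ e.symm, ?_, ?_⟩
  · rwa [det_submatrix_equiv_self]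
  · have h2 : H = (H.submatrix e e).submatrix e.symm e.symm := by
      ext i j
      simp
    rw [h2, transpose_submatrix, ← submatrix_map, submatrix_mul_equiv, submatrix_mul_equiv, h1,
      submatrix_diagonal_equiv]

lemma herm_cong {n : Type} [Fintype n] [DecidableEq n] (hθ : ∀ x, θ (θ x) = x) {ε : L}
    {H : Matrix n n L} (hH : Hᵀ = ε • H.map θ) (E : Matrix n n L) :
    (Eᵀ * H * E.map θ)ᵀ = ε • (Eᵀ * H * E.map θ).map θ := by
  have h1 : (E.map θ).map θ = E := by
    ext i j
    exact hθ _
  have h2 : (Eᵀ).map θ = (E.map θ)ᵀ := rfl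
  rw [transpose_mul, transpose_mul, transpose_transpose, hH, Matrix.map_mul, Matrix.map_mul, h1, h2,
    Matrix.smul_mul, Matrix.mul_smul, Matrix.mul_assoc]

/-- The step for a non-zero first entry. -/
lemma dg_block {ι m : Type} [Fintype ι] [DecidableEq ι] [Unique ι] [Fintype m] [DecidableEq m]
    (hθ : ∀ x, θ (θ x) = x) {ε : L}
    (ih : ∀ H : Matrix m m L, Hᵀ = ε • H.map θ → Dg θ H) {H : Matrix (ι ⊕ m) (ι ⊕ m) L}
    (hH : Hᵀ = ε • H.map θ) (h0 : H (Sum.inl default) (Sum.inl default) ≠ 0) : Dg θ H := by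
  have hdet : H.toBlocks₁₁.det ≠ 0 := by
    rw [det_unique]
    exact h0
  have hu : IsUnit H.toBlocks₁₁.det := isUnit_iff_ne_zero.mpr hdet
  let X : Matrix ι m L := -(H.toBlocks₂₁ * (H.toBlocks₁₁)⁻¹)ᵀ
  let E2 : Matrix (ι ⊕ m) (ι ⊕ m) L := fromBlocks 1 X 0 1
  have hE2 : E2.det ≠ 0 := by
    show (fromBlocks 1 X 0 1).det ≠ 0
    rw [det_fromBlocks_zero₂₁, det_one, det_one, mul_one]
    exact one_ne_zero
  refine Dg.of_cong E2 hE2 ?_
  have hM := herm_cong hθ hH E2
  have h21 : (E2ᵀ * H * E2.map θ).toBlocks₂₁ = 0 := by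
    have h1 : E2ᵀ * H * E2.map θ = (fromBlocks 1 X 0 1)ᵀ *
        fromBlocks H.toBlocks₁₁ H.toBlocks₁₂ H.toBlocks₂₁ H.toBlocks₂₂ *
        (fromBlocks 1 X 0 1).map θ := by
      rw [fromBlocks_toBlocks]
    rw [h1, fromBlocks_transpose, fromBlocks_map, fromBlocks_multiply, fromBlocks_multiply,
      toBlocks_fromBlocks₂₁]
    have h2 : (1 : Matrix ι ι L).map θ = 1 := Matrix.map_one θ (map_zero θ) (map_one θ)
    have h3 : (0 : Matrix m ι L).map θ = 0 := Matrix.map_zero θ (map_zero θ)
    rw [h2, h3, Matrix.mul_zero, add_zero, Matrix.mul_one, transpose_one, Matrix.one_mul]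
    show Xᵀ * H.toBlocks₁₁ + H.toBlocks₂₁ = 0
    rw [transpose_neg, transpose_transpose, Matrix.neg_mul, Matrix.mul_assoc,
      nonsing_inv_mul _ hu, Matrix.mul_one, neg_add_cancel]
  generalize hM1 : E2ᵀ * H * E2.map θ = M at hM h21
  have h12 : M.toBlocks₁₂ = 0 := by
    ext i j
    have h1 := congrFun (congrFun hM (Sum.inr j)) (Sum.inl i)
    have h2 : M (Sum.inr j) (Sum.inl i) = 0 := congrFun (congrFun h21 j) i
    rw [transpose_apply, Matrix.smul_apply, Matrix.map_apply, h2, map_zero, smul_zero] at h1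
    exact h1
  have h22 : (M.toBlocks₂₂)ᵀ = ε • M.toBlocks₂₂.map θ := by
    ext i j
    exact congrFun (congrFun hM (Sum.inr i)) (Sum.inr j)
  obtain ⟨E3, D3, hE3, h3⟩ := ih _ h22
  refine ⟨fromBlocks 1 0 0 E3, Sum.elim (fun _ => M (Sum.inl default) (Sum.inl default)) D3,
    ?_, ?_⟩
  · rw [det_fromBlocks_zero₂₁, det_one, one_mul]
    exact hE3
  · have h4 : M = fromBlocks M.toBlocks₁₁ 0 0 M.toBlocks₂₂ := by
      conv_lhs => rw [← fromBlocks_toBlocks M]
      rw [h12, h21]
    have h5 : (1 : Matrix ι ι L).map θ = 1 := Matrix.map_one θ (map_zero θ) (map_one θ)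
    have h6 : (0 : Matrix m ι L).map θ = 0 := Matrix.map_zero θ (map_zero θ)
    have h7 : (0 : Matrix ι m L).map θ = 0 := Matrix.map_zero θ (map_zero θ)
    rw [← fromBlocks_diagonal]
    have h8 : M.toBlocks₁₁ = diagonal (fun _ => M (Sum.inl default) (Sum.inl default)) := by
      ext i j
      rw [Unique.eq_default i, Unique.eq_default j, diagonal_apply_eq]
      rfl
    conv_lhs => rw [h4]
    rw [fromBlocks_transpose, fromBlocks_map, fromBlocks_multiply, fromBlocks_multiply, h5, h6, h7,
      ← h3, ← h8]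
    simp
end

theorem st_DIAG : ST_DIAG.{u} := by
  intro L _ _ θ hθ hne ε hε
  have hy : ∃ y : L, θ y + ε * y ≠ 0 := by
    rcases hε with rfl | rfl
    · refine ⟨1, ?_⟩
      rw [map_one, one_mul]
      norm_num
    · obtain ⟨x, hx⟩ := hne
      refine ⟨x, ?_⟩
      rw [neg_one_mul, ← sub_eq_add_neg]
      exact sub_ne_zero.mpr hx
  obtain ⟨y, hy⟩ := hy
  have key : ∀ (b : ℕ) (n : Type) [Fintype n] [DecidableEq n], Fintype.card n = b →
      ∀ H : Matrix n n L, Hᵀ = ε • H.map θ → Dg θ H := by
    intro b
    induction b with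
    | zero =>
      intro n _ _ hn H _
      have : IsEmpty n := Fintype.card_eq_zero_iff.mp hn
      exact ⟨1, 0, by rw [det_one]; exact one_ne_zero, Subsingleton.elim _ _⟩
    | succ b ih =>
      intro n _ _ hn H hH
      by_cases hH0 : H = 0
      · refine ⟨1, 0, by rw [det_one]; exact one_ne_zero, ?_⟩
        rw [hH0, Matrix.mul_zero, Matrix.zero_mul]
        exact diagonal_zero.symm
      -- a vector which is not isotropic
      have hex : ∃ (i : n) (E1 : Matrix n n L), E1.det ≠ 0 ∧ (E1ᵀ * H * E1.map θ) i i ≠ 0 := by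
        by_cases hd : ∃ i, H i i ≠ 0
        · obtain ⟨i, hi⟩ := hd
          refine ⟨i, 1, by rw [det_one]; exact one_ne_zero, ?_⟩
          have h2 : (1 : Matrix n n L).map θ = 1 := Matrix.map_one θ (map_zero θ) (map_one θ)
          rwa [h2, transpose_one, Matrix.one_mul, Matrix.mul_one]
        · push Not at hd
          have hij : ∃ i j, H i j ≠ 0 := by
            by_contra hcon
            push Not at hcon
            exact hH0 (Matrix.ext hcon)
          obtain ⟨i, j, hij⟩ := hij
          have hne : i ≠ j := by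
            rintro rfl
            exact hij (hd i)
          have hji : H j i = ε * θ (H i j) := congrFun (congrFun hH i) j
          have hθij : θ (H i j) ≠ 0 := by
            intro h0
            exact hij ((map_eq_zero_iff θ θ.injective).mp h0)
          refine ⟨i, transvection j i (y / θ (H i j)), ?_, ?_⟩
          · rw [det_transvection_of_ne _ _ hne.symm]
            exact one_ne_zero
          · have h1 : (transvection j i (y / θ (H i j)))ᵀ = transvection i j (y / θ (H i j)) := by
              rw [transvection, transvection, transpose_add, transpose_one, transpose_single]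
            have h2 : (transvection j i (y / θ (H i j))).map θ =
                transvection j i (θ (y / θ (H i j))) := by
              rw [transvection, transvection, Matrix.map_add θ (map_add θ),
                Matrix.map_one θ (map_zero θ) (map_one θ), map_single]
            rw [h1, h2, mul_transvection_apply_same, transvection_mul_apply_same,
              transvection_mul_apply_same, hd i, hd j, hji, map_div₀, hθ]
            have h3 : (0 : L) + y / θ (H i j) * (ε * θ (H i j)) +
                θ y / H i j * (H i j + y / θ (H i j) * 0) = θ y + ε * y := by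
              field_simp
              ring
            rw [h3]
            exact hy
      obtain ⟨i, E1, hE1, hi⟩ := hex
      refine Dg.of_cong E1 hE1 ?_
      have hM := herm_cong hθ hH E1
      generalize E1ᵀ * H * E1.map θ = M at hi hM
      refine Dg.of_submatrix (Equiv.sumCompl (fun a => a = i)) ?_
      have hcard : Fintype.card {a // ¬ a = i} = b := by
        have h1 := Fintype.card_congr (Equiv.sumCompl (fun a : n => a = i))
        rw [Fintype.card_sum, Fintype.card_unique, hn] at h1
        omega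
      refine dg_block hθ (fun H' hH' => ih _ hcard H' hH') ?_ ?_
      · ext a c
        exact congrFun (congrFun hM _) _
      · exact hi
  intro b H hH
  exact key b (Fin b) (Fintype.card_fin b) H hH

end Pool.Agent.Helper19.CG
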