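import Pool.Agent.Helper19.CG.Lev

set_option autoImplicit false

/-!
# Row LEVC: isometries from their coordinates
-/

namespace Pool.Agent.Helper19.CG

open Matrix Pool.Agent.Helper97.CG

universe u

theorem st_LEVC {k : Type u} [Field k] [IsAlgClosed k] [CharZero k] : ST_LEVC k := by
  intro e w _ _ ε Jw hJ A B α C D Y hA hB hα hY x hx
  have hu : IsUnit α.det := isUnit_iff_ne_zero.mpr hα
  have hu' : IsUnit αᵀ.det := by rw [det_transpose]; exact hu
  have h1 : α * α⁻¹ = 1 := mul_nonsing_inv _ hu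
  have h2 : (αᵀ)⁻¹ * αᵀ = 1 := nonsing_inv_mul _ hu'
  have hx2 := hx.trans (lev_prod A B α (αᵀ)⁻¹ C D Y)
  have e11 : b11 x = α := by rw [hx2]; rfl
  have e21 : b21 x = A * α := by rw [hx2]; rfl
  have e31 : b31 x = C * α := by rw [hx2]; rfl
  have e12 : b12 x = B * (αᵀ)⁻¹ := by rw [hx2]; rfl
  have e32 : b32 x = C * B * (αᵀ)⁻¹ + D * (αᵀ)⁻¹ := by rw [hx2]; rfl
  have e13 : b13 x = -(ε • (Dᵀ * Jw * Y)) := by rw [hx2]; rfl
  have e33 : b33 x = -(ε • (C * (Dᵀ * Jw * Y))) + Y := by rw [hx2]; rfl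
  have eA : lA x = A := by
    rw [lA, e11, e21, Matrix.mul_assoc, h1, Matrix.mul_one]
  have eC : lC x = C := by
    rw [lC, e11, e31, Matrix.mul_assoc, h1, Matrix.mul_one]
  refine ⟨?_, ?_, e11, eA, eC, ?_, ?_, ?_⟩
  · rw [hx]
    exact isom_mul (isom_mul (isom_nLow hJ hA) (isom_nUp hJ hB)) (isom_dg hα hY)
  · rw [hx, det_mul, det_mul, det_nLow, det_nUp, det_dg, one_mul, one_mul, det_nonsing_inv,
      det_transpose, ← mul_assoc, Ring.inverse_eq_inv', mul_inv_cancel₀ hα, one_mul]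
  · rw [lY, eC, e13, e33, Matrix.mul_neg, Matrix.mul_smul]
    abel
  · rw [e12, e11, Matrix.mul_assoc, h2, Matrix.mul_one]
  · rw [eC, e12, e32, e11, Matrix.mul_assoc C B, add_sub_cancel_left, Matrix.mul_assoc, h2,
      Matrix.mul_one]

end Pool.Agent.Helper19.CG
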