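import Pool.Agent.Helper19.CG.Lev

set_option autoImplicit false

/-!
# Row LEVF: factorisation of isometries
-/

namespace Pool.Agent.Helper19.CG

open Matrix Pool.Agent.Helper97.CG

universe u

theorem st_LEVF {k : Type u} [Field k] [IsAlgClosed k] [CharZero k] : ST_LEVF k := by
  intro e w _ _ ε Jw hJ x hx hα
  have hu : IsUnit (b11 x).det := isUnit_iff_ne_zero.mpr hα
  have hu' : IsUnit (b11 x)ᵀ.det := by rw [det_transpose]; exact hu
  have h1 : b11 x * (b11 x)⁻¹ = 1 := mul_nonsing_inv _ hu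
  have h1' : (b11 x)⁻¹ * b11 x = 1 := nonsing_inv_mul _ hu
  have h2 : ((b11 x)ᵀ)⁻¹ * (b11 x)ᵀ = 1 := nonsing_inv_mul _ hu'
  have h2' : (b11 x)ᵀ * ((b11 x)ᵀ)⁻¹ = 1 := mul_nonsing_inv _ hu'
  have hεε : ∀ {l m : Type} (M : Matrix l m k), ε • (ε • M) = M := by
    intro l m M
    rw [smul_smul, eps_sq hJ, one_smul]
  have eA : lA x * b11 x = b21 x := by rw [lA, Matrix.mul_assoc, h1', Matrix.mul_one]
  have eC : lC x * b11 x = b31 x := by rw [lC, Matrix.mul_assoc, h1', Matrix.mul_one]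
  -- the (1,1) block
  have hgen : ∀ y : Matrix (Fin e ⊕ (Fin e ⊕ w)) (Fin e ⊕ (Fin e ⊕ w)) k,
      yᵀ * LJ (Fin e) ε Jw * y = LJ (Fin e) ε Jw →
      ((b11 y)ᵀ * b21 y + (b21 y)ᵀ * (ε • b11 y) + (b31 y)ᵀ * (Jw * b31 y) = 0 ∧
        (b11 y)ᵀ * b22 y + (b21 y)ᵀ * (ε • b12 y) + (b31 y)ᵀ * (Jw * b32 y) = 1 ∧
        (b11 y)ᵀ * b23 y + (b21 y)ᵀ * (ε • b13 y) + (b31 y)ᵀ * (Jw * b33 y) = 0) ∧
      (True ∧ (b12 y)ᵀ * b22 y + (b22 y)ᵀ * (ε • b12 y) + (b32 y)ᵀ * (Jw * b32 y) = 0 ∧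
        (b12 y)ᵀ * b23 y + (b22 y)ᵀ * (ε • b13 y) + (b32 y)ᵀ * (Jw * b33 y) = 0) ∧
      (True ∧ True ∧
        (b13 y)ᵀ * b23 y + (b23 y)ᵀ * (ε • b13 y) + (b33 y)ᵀ * (Jw * b33 y) = Jw) := by
    intro y hy
    rw [← mk3_eta y, Matrix.mul_assoc, LJ_mul, mk3_transpose, mk3_mul, LJ] at hy
    obtain ⟨⟨a1, a2, a3⟩, ⟨_, a5, a6⟩, ⟨_, _, a9⟩⟩ := mk3_inj hy
    exact ⟨⟨a1, a2, a3⟩, ⟨trivial, a5, a6⟩, ⟨trivial, trivial, a9⟩⟩
  have hA : lA x + ε • (lA x)ᵀ + (lC x)ᵀ * Jw * lC x = 0 := by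
    have h3 := (hgen x hx).1.1
    have h4 : (b11 x)ᵀ * (lA x + ε • (lA x)ᵀ + (lC x)ᵀ * Jw * lC x) * b11 x = 0 := by
      rw [← h3, ← eA, ← eC, transpose_mul, transpose_mul]
      simp only [Matrix.mul_add, Matrix.add_mul, Matrix.mul_smul, Matrix.smul_mul,
        Matrix.mul_assoc]
    have h5 : ((b11 x)ᵀ)⁻¹ * ((b11 x)ᵀ * (lA x + ε • (lA x)ᵀ + (lC x)ᵀ * Jw * lC x) * b11 x) *
        (b11 x)⁻¹ = lA x + ε • (lA x)ᵀ + (lC x)ᵀ * Jw * lC x := by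
      rw [Matrix.mul_assoc (b11 x)ᵀ, ← Matrix.mul_assoc _ (b11 x)ᵀ, h2, Matrix.one_mul,
        Matrix.mul_assoc, h1, Matrix.mul_one]
    rw [← h5, h4, Matrix.mul_zero, Matrix.zero_mul]
  have hlow := isom_nLow (e := Fin e) hJ hA
  -- the inverse of the lower factor
  let v : Matrix (Fin e ⊕ (Fin e ⊕ w)) (Fin e ⊕ (Fin e ⊕ w)) k :=
    mk3 1 0 0 (ε • (lA x)ᵀ) 1 ((lC x)ᵀ * Jw) (-lC x) 0 1
  have hv : nLow Jw (lA x) (lC x) * v = 1 := by
    show nLow Jw (lA x) (lC x) * mk3 1 0 0 (ε • (lA x)ᵀ) 1 ((lC x)ᵀ * Jw) (-lC x) 0 1 = 1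
    rw [nLow, mk3_mul]
    simp only [Matrix.zero_mul, Matrix.one_mul, Matrix.mul_zero, Matrix.mul_one, zero_add,
      add_zero, Matrix.neg_mul, Matrix.mul_neg, neg_neg, neg_zero, add_neg_cancel, hA]
    exact mk3_one (R := k) (e := Fin e) (w := w)
  have hv' : v * nLow Jw (lA x) (lC x) = 1 := mul_eq_one_comm.mp hv
  have hviso : vᵀ * LJ (Fin e) ε Jw * v = LJ (Fin e) ε Jw := by
    calc vᵀ * LJ (Fin e) ε Jw * v
        = vᵀ * ((nLow Jw (lA x) (lC x))ᵀ * LJ (Fin e) ε Jw * nLow Jw (lA x) (lC x)) * v := by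
          rw [hlow]
      _ = (nLow Jw (lA x) (lC x) * v)ᵀ * LJ (Fin e) ε Jw * (nLow Jw (lA x) (lC x) * v) := by
          rw [transpose_mul]; simp only [Matrix.mul_assoc]
      _ = LJ (Fin e) ε Jw := by rw [hv, transpose_one, Matrix.one_mul, Matrix.mul_one]
  have hy := isom_mul hviso hx
  have hxy : nLow Jw (lA x) (lC x) * (v * x) = x := by
    rw [← Matrix.mul_assoc, hv, Matrix.one_mul]
  have hvx : v * x = mk3 (b11 x) (b12 x) (b13 x)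
      (ε • (lA x)ᵀ * b11 x + b21 x + (lC x)ᵀ * Jw * b31 x)
      (ε • (lA x)ᵀ * b12 x + b22 x + (lC x)ᵀ * Jw * b32 x)
      (ε • (lA x)ᵀ * b13 x + b23 x + (lC x)ᵀ * Jw * b33 x)
      (-(lC x * b11 x) + b31 x) (-(lC x * b12 x) + b32 x) (-(lC x * b13 x) + b33 x) := by
    conv_lhs => rw [← mk3_eta x]
    show mk3 1 0 0 (ε • (lA x)ᵀ) 1 ((lC x)ᵀ * Jw) (-lC x) 0 1 * _ = _
    rw [mk3_mul]
    simp only [Matrix.zero_mul, Matrix.one_mul, add_zero, Matrix.neg_mul]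
  have c21 : ε • (lA x)ᵀ * b11 x + b21 x + (lC x)ᵀ * Jw * b31 x = 0 := by
    rw [← eA, ← eC]
    have h5 : ε • (lA x)ᵀ * b11 x + lA x * b11 x + (lC x)ᵀ * Jw * (lC x * b11 x) =
        (lA x + ε • (lA x)ᵀ + (lC x)ᵀ * Jw * lC x) * b11 x := by
      rw [Matrix.add_mul, Matrix.add_mul, ← Matrix.mul_assoc, add_comm (ε • (lA x)ᵀ * b11 x)]
    rw [h5, hA, Matrix.zero_mul]
  have c31 : -(lC x * b11 x) + b31 x = 0 := by rw [eC, neg_add_cancel]
  rw [c21, c31] at hvx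
  have hg := hgen _ hy
  generalize hyy : v * x = y at hvx hy hxy hg
  have y11 : b11 y = b11 x := by rw [hvx]; rfl
  have y12 : b12 y = b12 x := by rw [hvx]; rfl
  have y13 : b13 y = b13 x := by rw [hvx]; rfl
  have y21 : b21 y = 0 := by rw [hvx]; rfl
  have y31 : b31 y = 0 := by rw [hvx]; rfl
  have y32 : b32 y = b32 x - lC x * b12 x := by
    rw [hvx]
    show -(lC x * b12 x) + b32 x = b32 x - lC x * b12 x
    rw [sub_eq_add_neg, add_comm]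
  have y33 : b33 y = lY x := by
    rw [hvx, lY]
    show -(lC x * b13 x) + b33 x = b33 x - lC x * b13 x
    rw [sub_eq_add_neg, add_comm]
  obtain ⟨⟨_, g12, g13⟩, ⟨_, g22, g23⟩, ⟨_, _, g33⟩⟩ := hg
  rw [y11, y21, y31, transpose_zero, Matrix.zero_mul, transpose_zero, Matrix.zero_mul, add_zero,
    add_zero] at g12 g13
  have y22 : b22 y = ((b11 x)ᵀ)⁻¹ := by
    rw [← Matrix.one_mul (b22 y), ← h2, Matrix.mul_assoc, g12, Matrix.mul_one]
  have y23 : b23 y = 0 := by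
    rw [← Matrix.one_mul (b23 y), ← h2, Matrix.mul_assoc, g13, Matrix.mul_zero]
  rw [y23, transpose_zero, Matrix.zero_mul, Matrix.mul_zero, add_zero, zero_add, y33,
    ← Matrix.mul_assoc] at g33
  rw [y12, y22, y32] at g22
  rw [y23, Matrix.mul_zero, zero_add, y22, y13, y32, y33] at g23
  have hT : (((b11 x)ᵀ)⁻¹)ᵀ = (b11 x)⁻¹ := by rw [transpose_nonsing_inv, transpose_transpose]
  rw [hT] at g22 g23
  generalize hB : b12 x * (b11 x)ᵀ = B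
  generalize hD : (b32 x - lC x * b12 x) * (b11 x)ᵀ = D
  have e12 : b12 x = B * ((b11 x)ᵀ)⁻¹ := by
    rw [← hB, Matrix.mul_assoc, h2', Matrix.mul_one]
  have e32 : b32 x - lC x * b12 x = D * ((b11 x)ᵀ)⁻¹ := by
    rw [← hD, Matrix.mul_assoc, h2', Matrix.mul_one]
  have g22' : B + ε • Bᵀ + ε • (Dᵀ * Jw * D) = 0 := by
    have h6 : b11 x * ((b12 x)ᵀ * ((b11 x)ᵀ)⁻¹ + (b11 x)⁻¹ * ε • b12 x +
        (b32 x - lC x * b12 x)ᵀ * (Jw * (b32 x - lC x * b12 x))) * (b11 x)ᵀ =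
        Bᵀ + ε • B + Dᵀ * Jw * D := by
      rw [← hB, ← hD, transpose_mul, transpose_mul, transpose_transpose, Matrix.mul_add,
        Matrix.mul_add, Matrix.add_mul, Matrix.add_mul]
      congr 1
      · congr 1
        · rw [Matrix.mul_assoc, Matrix.mul_assoc (b12 x)ᵀ, h2, Matrix.mul_one]
        · rw [← Matrix.mul_assoc, h1, Matrix.one_mul, Matrix.smul_mul]
      · simp only [Matrix.mul_assoc]
    rw [g22, Matrix.mul_zero, Matrix.zero_mul] at h6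
    have h7 := congrArg (fun M => ε • M) h6
    simp only [smul_add, hεε, smul_zero] at h7
    rw [h7]
    abel
  have g23' : b13 x = -(ε • (Dᵀ * Jw * lY x)) := by
    have h6 : b11 x * ((b11 x)⁻¹ * ε • b13 x + (b32 x - lC x * b12 x)ᵀ * (Jw * lY x)) =
        ε • b13 x + Dᵀ * Jw * lY x := by
      rw [← hD, transpose_mul, transpose_transpose, Matrix.mul_add, ← Matrix.mul_assoc, h1,
        Matrix.one_mul]
      simp only [Matrix.mul_assoc]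
    rw [g23, Matrix.mul_zero] at h6
    have h7 := congrArg (fun M => ε • M) h6
    simp only [smul_add, hεε, smul_zero] at h7
    exact eq_neg_of_add_eq_zero_left h7.symm
  have hfac : x = nLow Jw (lA x) (lC x) * nUp ε Jw B D * dg (b11 x) ((b11 x)ᵀ)⁻¹ (lY x) := by
    have h8 : y = nUp ε Jw B D * dg (b11 x) ((b11 x)ᵀ)⁻¹ (lY x) := by
      rw [nUp, dg, mk3_mul]
      simp only [Matrix.zero_mul, Matrix.one_mul, Matrix.mul_zero, zero_add, add_zero,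
        Matrix.neg_mul, Matrix.smul_mul]
      rw [← mk3_eta y, y11, y12, y13, y21, y22, y23, y31, y32, y33, e32, e12, g23']
    rw [Matrix.mul_assoc, ← h8, hxy]
  refine ⟨hA, g33, g22', hfac, ?_⟩
  conv_lhs => rw [hfac]
  rw [det_mul, det_mul, det_nLow, det_nUp, det_dg, one_mul, one_mul, det_nonsing_inv,
    det_transpose, ← mul_assoc, Ring.inverse_eq_inv', mul_inv_cancel₀ hα, one_mul]

end Pool.Agent.Helper19.CG
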