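import Pool.Agent.Helper97.CG.Stmts

set_option autoImplicit false

/-!
# Row REFL: an orthogonal group contains a reflection
-/

namespace Pool.Agent.Helper19.CG

open Matrix Pool.Agent.Helper97.CG

universe u

/-- A non-zero symmetric matrix has a vector which is not isotropic. -/
lemma exists_nonisotropic {k : Type u} [Field k] [CharZero k] {n : Type} [Fintype n]
    [DecidableEq n] (J : Matrix n n k) (hs : Jᵀ = J) (hJ : J ≠ 0) :
    ∃ v : n → k, v ⬝ᵥ (J *ᵥ v) ≠ 0 := by
  by_contra hcon
  push Not at hcon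
  apply hJ
  have hdiag : ∀ i, J i i = 0 := by
    intro i
    have h := hcon (Pi.single i 1)
    rw [mulVec_single_one, single_one_dotProduct] at h
    exact h
  ext i j
  have h := hcon (Pi.single i 1 + Pi.single j 1)
  rw [mulVec_add, mulVec_single_one, mulVec_single_one, add_dotProduct, single_one_dotProduct,
    single_one_dotProduct] at h
  have h' : J i i + J i j + (J j i + J j j) = 0 := h
  rw [hdiag, hdiag, zero_add, add_zero] at h'
  have h2 : J j i = J i j := by
    have := congrFun (congrFun hs i) j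
    rwa [transpose_apply] at this
  rw [h2, ← two_mul] at h'
  exact (mul_eq_zero.mp h').resolve_left two_ne_zero

theorem st_REFL {k : Type u} [Field k] [IsAlgClosed k] [CharZero k] : ST_REFL k := by
  intro n _ _ _ J hJ
  have hs : Jᵀ = J := by rw [hJ.symm, one_smul]
  have hJ0 : J ≠ 0 := by
    intro h0
    apply hJ.det_ne
    rw [h0, det_zero]
  obtain ⟨v, hv⟩ := exists_nonisotropic J hs hJ0
  have hvJ : v ᵥ* J = J *ᵥ v := by
    rw [← vecMul_transpose, hs]
  have hT : (1 - (2 / (v ⬝ᵥ (J *ᵥ v))) • vecMulVec v (J *ᵥ v))ᵀ =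
      1 - (2 / (v ⬝ᵥ (J *ᵥ v))) • vecMulVec (J *ᵥ v) v := by
    rw [transpose_sub, transpose_one, transpose_smul, transpose_vecMulVec]
  refine ⟨1 - (2 / (v ⬝ᵥ (J *ᵥ v))) • vecMulVec v (J *ᵥ v), ?_, ?_⟩
  · rw [hT, sub_mul, sub_mul, mul_sub, mul_sub, one_mul, mul_one, mul_one, smul_mul_assoc,
      vecMulVec_mul, hvJ, smul_mul_assoc, mul_smul_comm, mul_smul_comm, mul_vecMulVec,
      vecMulVec_mul_vecMulVec, dotProduct_comm (J *ᵥ v) v]
    ext i j
    simp only [Matrix.sub_apply, Matrix.smul_apply, vecMulVec_apply, Pi.smul_apply, smul_eq_mul]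
    field_simp
    ring
  · have h1 : (1 : Matrix n n k) - (2 / (v ⬝ᵥ (J *ᵥ v))) • vecMulVec v (J *ᵥ v) =
        1 + replicateCol Unit (-(2 / (v ⬝ᵥ (J *ᵥ v))) • v) * replicateRow Unit (J *ᵥ v) := by
      ext i j
      simp only [Matrix.sub_apply, Matrix.add_apply, Matrix.smul_apply, vecMulVec_apply,
        smul_eq_mul, mul_apply, replicateCol_apply, replicateRow_apply, Pi.smul_apply,
        Finset.univ_unique, Finset.sum_singleton]
      ring
    rw [h1, det_one_add_replicateCol_mul_replicateRow, dotProduct_smul,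
      dotProduct_comm (J *ᵥ v) v, smul_eq_mul, neg_mul, div_mul_cancel₀ _ hv]
    norm_num

end Pool.Agent.Helper19.CG
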