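import Pool.Agent.Helper97.CG.Stmts

set_option autoImplicit false

/-!
# Row W1: chart for the stabiliser of an orthogonal decomposition
-/

namespace Pool.Agent.Helper19.CG

open MvPolynomial Matrix Pool.Agent.Helper97.CG Pool.Agent.Helper14.RG

universe u

section

variable {k : Type u} [Field k] {p q : Type} [Fintype p] [DecidableEq p] [Fintype q]
  [DecidableEq q]

lemma isForm_blocks {ε : k} {Jp : Matrix p p k} {Jq : Matrix q q k} (hp : IsForm ε Jp)
    (hq : IsForm ε Jq) : IsForm ε (fromBlocks Jp 0 0 Jq) := by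
  refine ⟨hp.eps, ?_, ?_⟩
  · rw [fromBlocks_transpose, hp.symm, hq.symm, fromBlocks_smul, transpose_zero, transpose_zero,
      smul_zero, smul_zero]
  · rw [det_fromBlocks_zero₂₁]
    exact mul_ne_zero hp.det_ne hq.det_ne

lemma isForm_gram {n : Type} [Fintype n] [DecidableEq n] {ε : k} {J : Matrix n n k}
    (hJ : IsForm ε J) {W : Matrix n n k} (hW : W.det ≠ 0) : IsForm ε (Wᵀ * J * W) := by
  refine ⟨hJ.eps, ?_, ?_⟩
  · rw [transpose_mul, transpose_mul, transpose_transpose, hJ.symm, Matrix.smul_mul,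
      Matrix.mul_smul, Matrix.mul_assoc]
  · rw [det_mul, det_mul, det_transpose]
    exact mul_ne_zero (mul_ne_zero hW hJ.det_ne) hW

lemma isForm_of_blocks {ε : k} {Jp : Matrix p p k} {Jq : Matrix q q k}
    (h : IsForm ε (fromBlocks Jp 0 0 Jq)) : IsForm ε Jp ∧ IsForm ε Jq := by
  have h1 := h.symm
  rw [fromBlocks_transpose, fromBlocks_smul, fromBlocks_inj] at h1
  have h2 := h.det_ne
  rw [det_fromBlocks_zero₂₁] at h2
  exact ⟨⟨h.eps, h1.1, left_ne_zero_of_mul h2⟩, ⟨h.eps, h1.2.2.2, right_ne_zero_of_mul h2⟩⟩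

lemma det_sq_of_isom {n : Type} [Fintype n] [DecidableEq n] {J x : Matrix n n k}
    (hJ : J.det ≠ 0) (hx : xᵀ * J * x = J) : x.det = 1 ∨ x.det = -1 := by
  have h1 := congrArg det hx
  rw [det_mul, det_mul, det_transpose] at h1
  have h2 : x.det * x.det = 1 := by
    have h3 : (x.det * x.det - 1) * J.det = 0 := by linear_combination h1
    exact sub_eq_zero.mp ((mul_eq_zero.mp h3).resolve_right hJ)
  exact mul_self_eq_one_iff.mp h2

end

section

variable {k : Type u} [Field k] [CharZero k] {p q : Type} [Fintype p] [DecidableEq p] [Fintype q]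
  [DecidableEq q]

/-- matrices commuting with `diag(1, -1)` are block diagonal -/
lemma comm_blocks {m : Matrix (p ⊕ q) (p ⊕ q) k}
    (h : fromBlocks 1 0 0 (-1) * m = m * fromBlocks 1 0 0 (-1)) :
    m = fromBlocks m.toBlocks₁₁ 0 0 m.toBlocks₂₂ := by
  conv at h =>
    rw [← fromBlocks_toBlocks m, fromBlocks_multiply, fromBlocks_multiply]
  have h12 := (fromBlocks_inj.mp h).2.1
  have h21 := (fromBlocks_inj.mp h).2.2.1
  have e12 : m.toBlocks₁₂ = 0 := by
    ext i j
    have h1 := congrFun (congrFun h12 i) j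
    simp only [Matrix.one_mul, Matrix.zero_mul, add_zero, Matrix.mul_zero, zero_add,
      Matrix.mul_neg, Matrix.mul_one, Matrix.neg_apply] at h1
    have h2 : (2 : k) * m.toBlocks₁₂ i j = 0 := by linear_combination h1
    exact (mul_eq_zero.mp h2).resolve_left two_ne_zero
  have e21 : m.toBlocks₂₁ = 0 := by
    ext i j
    have h1 := congrFun (congrFun h21 i) j
    simp only [Matrix.zero_mul, add_zero, Matrix.mul_zero, zero_add, Matrix.neg_mul,
      Matrix.one_mul, Matrix.mul_one, Matrix.neg_apply] at h1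
    have h2 : (2 : k) * m.toBlocks₂₁ i j = 0 := by linear_combination -h1
    exact (mul_eq_zero.mp h2).resolve_left two_ne_zero
  conv_lhs => rw [← fromBlocks_toBlocks m]
  rw [e12, e21]

lemma blocks_comm (a : Matrix p p k) (d : Matrix q q k) :
    (fromBlocks 1 0 0 (-1) : Matrix (p ⊕ q) (p ⊕ q) k) * fromBlocks a 0 0 d =
      fromBlocks a 0 0 d * fromBlocks 1 0 0 (-1) := by
  rw [fromBlocks_multiply, fromBlocks_multiply]
  simp

/-- isometries which preserve the first block space are block diagonal -/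
lemma isom_blocks {Jp : Matrix p p k} {Jq : Matrix q q k} (hp : Jp.det ≠ 0)
    {m : Matrix (p ⊕ q) (p ⊕ q) k} (hm : mᵀ * fromBlocks Jp 0 0 Jq * m = fromBlocks Jp 0 0 Jq)
    (h21 : m.toBlocks₂₁ = 0) : m = fromBlocks m.toBlocks₁₁ 0 0 m.toBlocks₂₂ := by
  conv at hm =>
    rw [← fromBlocks_toBlocks m, fromBlocks_transpose, fromBlocks_multiply, fromBlocks_multiply]
  rw [h21] at hm
  have h11 := (fromBlocks_inj.mp hm).1
  have h12 := (fromBlocks_inj.mp hm).2.1
  simp only [transpose_zero, Matrix.zero_mul, Matrix.mul_zero, add_zero, zero_add] at h11 h12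
  have e12 : m.toBlocks₁₂ = 0 := by
    have hd : ((m.toBlocks₁₁)ᵀ * Jp).det ≠ 0 := by
      intro h0
      apply hp
      rw [← h11, det_mul, h0, zero_mul]
    have hu := isUnit_iff_ne_zero.mpr hd
    rw [← Matrix.one_mul m.toBlocks₁₂, ← nonsing_inv_mul _ hu, Matrix.mul_assoc, h12,
      Matrix.mul_zero]
  conv_lhs => rw [← fromBlocks_toBlocks m]
  rw [e12, h21]

end

theorem st_W1 {k : Type u} [Field k] [IsAlgClosed k] [CharZero k] (hE : ST_EQV k)
    (hD : ST_DET1 k) (hR : ST_REFL k) : ST_W1 k := by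
  intro p q _ _ _ _ ε Jp Jq hp hq hno
  have hJ := isForm_blocks hp hq
  have hinf : Infinite k := IsAlgClosed.instInfinite
  -- the matrix of an element
  have hiso : ∀ x : IsoG (fromBlocks Jp 0 0 Jq),
      (isoHom _ x)ᵀ * fromBlocks Jp 0 0 Jq * isoHom _ x = fromBlocks Jp 0 0 Jq := fun x => x.2
  have hdet : ∀ x : IsoG (fromBlocks Jp 0 0 Jq), (isoHom _ x).det = 1 := fun x => x.1.2
  have hmem : ∀ i j, (fun g : IsoG (fromBlocks Jp 0 0 Jq) => isoHom _ g i j) ∈
      mAlg (isoHom (fromBlocks Jp 0 0 Jq)) := fun i j => Algebra.subset_adjoin ⟨i, j, rfl⟩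
  -- block diagonal elements
  have hbl : ∀ m x : Matrix (p ⊕ q) (p ⊕ q) k, m = fromBlocks m.toBlocks₁₁ 0 0 m.toBlocks₂₂ →
      (x * m).toBlocks₁₁ = x.toBlocks₁₁ * m.toBlocks₁₁ ∧
        (x * m).toBlocks₂₁ = x.toBlocks₂₁ * m.toBlocks₁₁ := by
    intro m x hm
    have h1 : x * m = fromBlocks (x.toBlocks₁₁ * m.toBlocks₁₁) (x.toBlocks₁₂ * m.toBlocks₂₂)
        (x.toBlocks₂₁ * m.toBlocks₁₁) (x.toBlocks₂₂ * m.toBlocks₂₂) := by
      conv_lhs => rw [hm, ← fromBlocks_toBlocks x, fromBlocks_multiply]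
      simp
    rw [h1]
    exact ⟨toBlocks_fromBlocks₁₁ _ _ _ _, toBlocks_fromBlocks₂₁ _ _ _ _⟩
  have hdb : ∀ m : Matrix (p ⊕ q) (p ⊕ q) k, m.det = 1 →
      m = fromBlocks m.toBlocks₁₁ 0 0 m.toBlocks₂₂ → m.toBlocks₁₁.det ≠ 0 := by
    intro m h1 h2 h3
    rw [h2, det_fromBlocks_zero₂₁, h3, zero_mul] at h1
    exact zero_ne_one h1
  have hquot : ∀ (x11 : Matrix p p k) (x21 : Matrix q p k) (m : Matrix p p k), m.det ≠ 0 →
      x21 * m * (x11 * m)⁻¹ = x21 * x11⁻¹ := by
    intro x11 x21 m hm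
    rw [Matrix.mul_inv_rev, Matrix.mul_assoc, ← Matrix.mul_assoc m,
      mul_nonsing_inv _ (isUnit_iff_ne_zero.mpr hm), Matrix.one_mul]
  have hcm : ∀ h ∈ cm (isoHom (fromBlocks Jp 0 0 Jq)) (fromBlocks 1 0 0 (-1)),
      ∀ g : IsoG (fromBlocks Jp 0 0 Jq), (isoHom _ g).toBlocks₁₁.det ≠ 0 →
      (isoHom _ (g * h)).toBlocks₁₁.det ≠ 0 ∧
      (isoHom _ (g * h)).toBlocks₂₁ * ((isoHom _ (g * h)).toBlocks₁₁)⁻¹ =
        (isoHom _ g).toBlocks₂₁ * ((isoHom _ g).toBlocks₁₁)⁻¹ := by
    intro h hh g hg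
    have h1 := comm_blocks hh
    have h2 := hdb _ (hdet h) h1
    rw [map_mul]
    obtain ⟨h3, h4⟩ := hbl _ (isoHom _ g) h1
    rw [h3, h4, hquot _ _ _ h2, det_mul]
    exact ⟨mul_ne_zero hg h2, rfl⟩
  -- existence of the points
  have hdom : ∀ B : Matrix q p k, (Jp + Bᵀ * Jq * B).det ≠ 0 →
      ∃ g : IsoG (fromBlocks Jp 0 0 Jq), (isoHom _ g).toBlocks₁₁.det ≠ 0 ∧
        (isoHom _ g).toBlocks₂₁ * ((isoHom _ g).toBlocks₁₁)⁻¹ = B := by
    intro B hB
    have hpu : IsUnit Jp.det := isUnit_iff_ne_zero.mpr hp.det_ne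
    let B' : Matrix p q k := -(Jp⁻¹ * Bᵀ * Jq)
    let W : Matrix (p ⊕ q) (p ⊕ q) k := fromBlocks 1 B' B 1
    have hW : W.det ≠ 0 := by
      show (fromBlocks 1 B' B 1).det ≠ 0
      rw [det_fromBlocks_one₂₂]
      have h1 : 1 - B' * B = Jp⁻¹ * (Jp + Bᵀ * Jq * B) := by
        show 1 - -(Jp⁻¹ * Bᵀ * Jq) * B = _
        rw [Matrix.mul_add, nonsing_inv_mul _ hpu, Matrix.neg_mul, sub_neg_eq_add]
        simp only [Matrix.mul_assoc]
      rw [h1, det_mul]
      refine mul_ne_zero ?_ hB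
      rw [det_nonsing_inv, Ring.inverse_eq_inv']
      exact inv_ne_zero hp.det_ne
    have hB' : Jp * B' + Bᵀ * Jq = 0 := by
      show Jp * -(Jp⁻¹ * Bᵀ * Jq) + Bᵀ * Jq = 0
      rw [Matrix.mul_neg, Matrix.mul_assoc Jp⁻¹, ← Matrix.mul_assoc, mul_nonsing_inv _ hpu,
        Matrix.one_mul, neg_add_cancel]
    have hB'' : B'ᵀ * Jp + Jq * B = 0 := by
      have h1 := congrArg transpose hB'
      rw [transpose_add, transpose_mul, transpose_mul, transpose_transpose, hp.symm, hq.symm,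
        Matrix.mul_smul, Matrix.smul_mul, ← smul_add, transpose_zero] at h1
      rcases smul_eq_zero.mp h1 with h2 | h2
      · rcases hp.eps with h3 | h3
        · rw [h3] at h2; exact absurd h2 one_ne_zero
        · rw [h3] at h2; exact absurd h2 (neg_ne_zero.mpr one_ne_zero)
      · exact h2
    have hgram : Wᵀ * fromBlocks Jp 0 0 Jq * W =
        fromBlocks (Jp + Bᵀ * Jq * B) 0 0 (B'ᵀ * Jp * B' + Jq) := by
      show (fromBlocks 1 B' B 1)ᵀ * fromBlocks Jp 0 0 Jq * fromBlocks 1 B' B 1 = _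
      rw [fromBlocks_transpose, fromBlocks_multiply, fromBlocks_multiply]
      simp only [transpose_one, Matrix.one_mul, Matrix.mul_one, Matrix.mul_zero, add_zero,
        zero_add, hB', hB'']
    have hform := isForm_gram hJ hW
    rw [hgram] at hform
    obtain ⟨hf1, hf2⟩ := isForm_of_blocks hform
    obtain ⟨g1, hg1⟩ := hE p p ε _ _ hf1 hp rfl
    obtain ⟨g2, hg2⟩ := hE q q ε _ _ hf2 hq rfl
    have hx : (W * fromBlocks g1 0 0 g2)ᵀ * fromBlocks Jp 0 0 Jq * (W * fromBlocks g1 0 0 g2) =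
        fromBlocks Jp 0 0 Jq := by
      have h1 : (W * fromBlocks g1 0 0 g2)ᵀ * fromBlocks Jp 0 0 Jq * (W * fromBlocks g1 0 0 g2) =
          (fromBlocks g1 0 0 g2)ᵀ * (Wᵀ * fromBlocks Jp 0 0 Jq * W) * fromBlocks g1 0 0 g2 := by
        rw [transpose_mul]; simp only [Matrix.mul_assoc]
      rw [h1, hgram, fromBlocks_transpose, fromBlocks_multiply, fromBlocks_multiply]
      simp only [transpose_zero, Matrix.zero_mul, Matrix.mul_zero, add_zero, zero_add, hg1, hg2]
    -- correction of the determinant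
    have hcor : ∃ (h1 : Matrix p p k) (h2 : Matrix q q k), h1ᵀ * Jp * h1 = Jp ∧
        h2ᵀ * Jq * h2 = Jq ∧ (W * fromBlocks g1 0 0 g2).det * (h1.det * h2.det) = 1 := by
      rcases det_sq_of_isom hJ.det_ne hx with h1 | h1
      · refine ⟨1, 1, ?_, ?_, ?_⟩
        · rw [transpose_one, Matrix.one_mul, Matrix.mul_one]
        · rw [transpose_one, Matrix.one_mul, Matrix.mul_one]
        · rw [h1, det_one, det_one]; ring
      · rcases hp.eps with h2 | h2
        · subst h2
          rcases isEmpty_or_nonempty p with hpe | hpe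
          · rcases isEmpty_or_nonempty q with hqe | hqe
            · rw [det_isEmpty] at h1
              exfalso
              have h3 : (2 : k) = 0 := by linear_combination h1
              exact two_ne_zero h3
            · obtain ⟨R, hR1, hR2⟩ := hR q Jq hq
              refine ⟨1, R, ?_, hR1, ?_⟩
              · rw [transpose_one, Matrix.one_mul, Matrix.mul_one]
              · rw [h1, det_one, hR2]; ring
          · obtain ⟨R, hR1, hR2⟩ := hR p Jp hp
            refine ⟨R, 1, hR1, ?_, ?_⟩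
            · rw [transpose_one, Matrix.one_mul, Matrix.mul_one]
            · rw [h1, det_one, hR2]; ring
        · subst h2
          have h3 := hD (p ⊕ q) _ hJ _ hx
          rw [h3] at h1
          exfalso
          have h4 : (2 : k) = 0 := by linear_combination h1
          exact two_ne_zero h4
    obtain ⟨h1, h2, e1, e2, e3⟩ := hcor
    have hx2 : (W * fromBlocks g1 0 0 g2 * fromBlocks h1 0 0 h2)ᵀ * fromBlocks Jp 0 0 Jq *
        (W * fromBlocks g1 0 0 g2 * fromBlocks h1 0 0 h2) = fromBlocks Jp 0 0 Jq := by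
      rw [transpose_mul]
      calc (fromBlocks h1 0 0 h2)ᵀ * (W * fromBlocks g1 0 0 g2)ᵀ * fromBlocks Jp 0 0 Jq *
            (W * fromBlocks g1 0 0 g2 * fromBlocks h1 0 0 h2)
          = (fromBlocks h1 0 0 h2)ᵀ * ((W * fromBlocks g1 0 0 g2)ᵀ * fromBlocks Jp 0 0 Jq *
            (W * fromBlocks g1 0 0 g2)) * fromBlocks h1 0 0 h2 := by simp only [Matrix.mul_assoc]
        _ = fromBlocks Jp 0 0 Jq := by
          rw [hx, fromBlocks_transpose, fromBlocks_multiply, fromBlocks_multiply]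
          simp only [transpose_zero, Matrix.zero_mul, Matrix.mul_zero, add_zero, zero_add, e1, e2]
    have hd2 : (W * fromBlocks g1 0 0 g2 * fromBlocks h1 0 0 h2).det = 1 := by
      rw [det_mul, det_fromBlocks_zero₂₁, e3]
    have hblk : W * fromBlocks g1 0 0 g2 * fromBlocks h1 0 0 h2 =
        fromBlocks (g1 * h1) (B' * g2 * h2) (B * g1 * h1) (g2 * h2) := by
      show fromBlocks 1 B' B 1 * fromBlocks g1 0 0 g2 * fromBlocks h1 0 0 h2 = _
      rw [fromBlocks_multiply, fromBlocks_multiply]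
      simp only [Matrix.one_mul, Matrix.mul_zero, add_zero, zero_add]
    have hg1d : g1.det ≠ 0 := by
      intro h0
      apply hp.det_ne
      rw [← hg1, det_mul, h0, mul_zero]
    have hh1d : h1.det ≠ 0 := by
      intro h0
      apply hp.det_ne
      rw [← e1, det_mul, h0, mul_zero]
    refine ⟨⟨⟨W * fromBlocks g1 0 0 g2 * fromBlocks h1 0 0 h2, hd2⟩, hx2⟩, ?_, ?_⟩
    · show (W * fromBlocks g1 0 0 g2 * fromBlocks h1 0 0 h2).toBlocks₁₁.det ≠ 0
      rw [hblk, toBlocks_fromBlocks₁₁, det_mul]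
      exact mul_ne_zero hg1d hh1d
    · show (W * fromBlocks g1 0 0 g2 * fromBlocks h1 0 0 h2).toBlocks₂₁ *
        ((W * fromBlocks g1 0 0 g2 * fromBlocks h1 0 0 h2).toBlocks₁₁)⁻¹ = B
      rw [hblk, toBlocks_fromBlocks₁₁, toBlocks_fromBlocks₂₁, hquot _ _ _ hh1d, Matrix.mul_assoc,
        mul_nonsing_inv _ (isUnit_iff_ne_zero.mpr hg1d), Matrix.mul_one]
  -- separation
  have hsep : ∀ g g' : IsoG (fromBlocks Jp 0 0 Jq), (isoHom _ g).toBlocks₁₁.det ≠ 0 →
      (isoHom _ g').toBlocks₁₁.det ≠ 0 →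
      (isoHom _ g).toBlocks₂₁ * ((isoHom _ g).toBlocks₁₁)⁻¹ =
        (isoHom _ g').toBlocks₂₁ * ((isoHom _ g').toBlocks₁₁)⁻¹ →
      g⁻¹ * g' ∈ cm (isoHom (fromBlocks Jp 0 0 Jq)) (fromBlocks 1 0 0 (-1)) := by
    intro g g' hg hg' ht
    show fromBlocks 1 0 0 (-1) * isoHom _ (g⁻¹ * g') = isoHom _ (g⁻¹ * g') * fromBlocks 1 0 0 (-1)
    have hm := hiso (g⁻¹ * g')
    have hxm : isoHom _ g' = isoHom _ g * isoHom _ (g⁻¹ * g') := by
      rw [← map_mul, mul_inv_cancel_left]
    have hdx := hdet g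
    generalize isoHom (fromBlocks Jp 0 0 Jq) (g⁻¹ * g') = m at hm hxm ⊢
    generalize isoHom (fromBlocks Jp 0 0 Jq) g' = x' at hxm hg' ht
    generalize isoHom (fromBlocks Jp 0 0 Jq) g = x at hxm hg ht hdx
    have hgu := isUnit_iff_ne_zero.mpr hg
    have hgu' := isUnit_iff_ne_zero.mpr hg'
    have b1 : x.toBlocks₂₁ = x.toBlocks₂₁ * (x.toBlocks₁₁)⁻¹ * x.toBlocks₁₁ := by
      rw [Matrix.mul_assoc, nonsing_inv_mul _ hgu, Matrix.mul_one]
    have b2 : x'.toBlocks₂₁ = x.toBlocks₂₁ * (x.toBlocks₁₁)⁻¹ * x'.toBlocks₁₁ := by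
      rw [ht, Matrix.mul_assoc, nonsing_inv_mul _ hgu', Matrix.mul_one]
    have hxm2 : x' = fromBlocks (x.toBlocks₁₁ * m.toBlocks₁₁ + x.toBlocks₁₂ * m.toBlocks₂₁)
        (x.toBlocks₁₁ * m.toBlocks₁₂ + x.toBlocks₁₂ * m.toBlocks₂₂)
        (x.toBlocks₂₁ * m.toBlocks₁₁ + x.toBlocks₂₂ * m.toBlocks₂₁)
        (x.toBlocks₂₁ * m.toBlocks₁₂ + x.toBlocks₂₂ * m.toBlocks₂₂) := by
      conv_lhs => rw [hxm, ← fromBlocks_toBlocks m, ← fromBlocks_toBlocks x, fromBlocks_multiply]
    have c1 : x'.toBlocks₁₁ = x.toBlocks₁₁ * m.toBlocks₁₁ + x.toBlocks₁₂ * m.toBlocks₂₁ := by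
      rw [hxm2, toBlocks_fromBlocks₁₁]
    have c2 : x'.toBlocks₂₁ = x.toBlocks₂₁ * m.toBlocks₁₁ + x.toBlocks₂₂ * m.toBlocks₂₁ := by
      rw [hxm2, toBlocks_fromBlocks₂₁]
    have hS : (x.toBlocks₂₂ - x.toBlocks₂₁ * (x.toBlocks₁₁)⁻¹ * x.toBlocks₁₂).det ≠ 0 := by
      have : Invertible x.toBlocks₁₁ := Matrix.invertibleOfIsUnitDet _ hgu
      have h1 : x.det = x.toBlocks₁₁.det *
          (x.toBlocks₂₂ - x.toBlocks₂₁ * ⅟x.toBlocks₁₁ * x.toBlocks₁₂).det := by
        conv_lhs => rw [← fromBlocks_toBlocks x]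
        exact det_fromBlocks₁₁ _ _ _ _
      rw [invOf_eq_nonsing_inv, hdx] at h1
      intro h0
      rw [h0, mul_zero] at h1
      exact one_ne_zero h1
    have hm21 : (x.toBlocks₂₂ - x.toBlocks₂₁ * (x.toBlocks₁₁)⁻¹ * x.toBlocks₁₂) *
        m.toBlocks₂₁ = 0 := by
      have h1 : x.toBlocks₂₁ * m.toBlocks₁₁ + x.toBlocks₂₂ * m.toBlocks₂₁ =
          x.toBlocks₂₁ * (x.toBlocks₁₁)⁻¹ *
            (x.toBlocks₁₁ * m.toBlocks₁₁ + x.toBlocks₁₂ * m.toBlocks₂₁) := by
        rw [← c1, ← c2, b2]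
      rw [Matrix.mul_add, ← Matrix.mul_assoc, ← b1, add_right_inj] at h1
      rw [Matrix.sub_mul, h1, Matrix.mul_assoc _ x.toBlocks₁₂, sub_self]
    have h21 : m.toBlocks₂₁ = 0 := by
      rw [← Matrix.one_mul m.toBlocks₂₁, ← nonsing_inv_mul _ (isUnit_iff_ne_zero.mpr hS),
        Matrix.mul_assoc, hm21, Matrix.mul_zero]
    rw [isom_blocks hp.det_ne hm h21]
    exact blocks_comm _ _
  refine ⟨q × p, inferInstance, inferInstance, ⟨?_⟩⟩
  exact
    { hH := cm_le_cmm _ _
      q0 := fun g => (isoHom _ g).toBlocks₁₁.det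
      q0_mem := det_mem_alg _ _ fun i j => hmem _ _
      q0_ne := by
        intro h0
        have h1 := congrFun h0 1
        rw [map_one] at h1
        have h2 : (1 : Matrix (p ⊕ q) (p ⊕ q) k).toBlocks₁₁ = 1 := by
          rw [← fromBlocks_one, toBlocks_fromBlocks₁₁]
        rw [h2, det_one] at h1
        exact one_ne_zero h1
      t := fun g j => ((isoHom _ g).toBlocks₂₁ * ((isoHom _ g).toBlocks₁₁)⁻¹) j.1 j.2
      treg := by
        intro j
        refine mul_mem_alg _ _ _ (fun i l => le_RegU _ _ (hmem _ _)) (fun i l => ?_) _ _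
        exact nonsing_inv_mem_RegU _ (fun i l => le_RegU _ _ (hmem _ _)) (fun g hg => hg) i l
      sep := by
        intro g g' hg hg' ht
        refine ⟨g⁻¹ * g', hsep g g' hg hg' ?_, by rw [mul_inv_cancel_left]⟩
        ext i j
        exact congrFun ht (i, j)
      dom := by
        intro P hP
        let Bg : Matrix q p (MvPolynomial (q × p) k) := Matrix.of fun i j => X (i, j)
        let Jp' : Matrix p p (MvPolynomial (q × p) k) := Jp.map C
        let Jq' : Matrix q q (MvPolynomial (q × p) k) := Jq.map C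
        let Q : MvPolynomial (q × p) k := (Jp' + Bgᵀ * Jq' * Bg).det
        have hQ : ∀ z : q × p → k, eval z Q =
            (Jp + (Matrix.of fun i j => z (i, j) : Matrix q p k)ᵀ * Jq *
              (Matrix.of fun i j => z (i, j) : Matrix q p k)).det := by
          intro z
          show eval z (Jp' + Bgᵀ * Jq' * Bg).det = _
          rw [RingHom.map_det]
          congr 1
          ext i j
          have e1 : ∀ a c, eval z (Jp' a c) = Jp a c := fun a c => eval_C _
          have e2 : ∀ a c, eval z (Jq' a c) = Jq a c := fun a c => eval_C _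
          have e3 : ∀ a c, eval z (Bg a c) = z (a, c) := fun a c => eval_X _
          simp only [RingHom.mapMatrix_apply, Matrix.map_apply, Matrix.add_apply,
            Matrix.mul_apply, map_add, map_sum, map_mul, transpose_apply, e1, e2, e3,
            Matrix.of_apply]
        have hQ0 : Q ≠ 0 := by
          intro h0
          have h1 := hQ 0
          rw [h0, map_zero] at h1
          have h2 : (Matrix.of fun i j => (0 : q × p → k) (i, j) : Matrix q p k) = 0 := by
            ext i j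
            rfl
          rw [h2, Matrix.mul_zero, add_zero] at h1
          exact hp.det_ne h1.symm
        obtain ⟨z, hz⟩ : ∃ z, eval z (P * Q) ≠ 0 := by
          by_contra hcon
          push Not at hcon
          exact mul_ne_zero hP hQ0 (MvPolynomial.funext fun z => by rw [hcon z, map_zero])
        rw [map_mul] at hz
        have h1 := right_ne_zero_of_mul hz
        rw [hQ] at h1
        obtain ⟨g, hg1, hg2⟩ := hdom _ h1
        refine ⟨g, hg1, ?_⟩
        have h2 : (fun j : q × p => ((isoHom _ g).toBlocks₂₁ *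
            ((isoHom _ g).toBlocks₁₁)⁻¹) j.1 j.2) = z := by
          funext j
          rw [hg2]
          rfl
        rw [h2]
        exact left_ne_zero_of_mul hz
      inv := by
        intro h hh g hg j
        show ((isoHom _ (g * h)).toBlocks₂₁ * ((isoHom _ (g * h)).toBlocks₁₁)⁻¹) j.1 j.2 = _
        rw [(hcm h hh g hg).2]
      equiv := by
        intro h hh
        have h1 : h ∈ cm (isoHom (fromBlocks Jp 0 0 Jq)) (fromBlocks 1 0 0 (-1)) := by
          rcases hh with h2 | h2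
          · exact h2
          · exact absurd h2 (hno h)
        refine ⟨1, fun g hg => ⟨(hcm h h1 g hg).1, fun j => ?_⟩⟩
        show ((isoHom _ (g * h)).toBlocks₂₁ * ((isoHom _ (g * h)).toBlocks₁₁)⁻¹) j.1 j.2 = _
        rw [(hcm h h1 g hg).2, Finset.sum_eq_single j]
        · rw [Matrix.one_apply_eq, one_mul]
        · intro l _ hl
          rw [Matrix.one_apply_ne hl.symm, zero_mul]
        · intro hl
          exact absurd (Finset.mem_univ _) hl }

end Pool.Agent.Helper19.CG
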