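import Pool.Agent.Helper97.CG.Stmts

set_option autoImplicit false

/-!
# Isometries of the standard form
-/

namespace Pool.Agent.Helper19.CG

open Matrix Pool.Agent.Helper97.CG

universe u

section

variable {k : Type u} [Field k] {e w : Type} [Fintype e] [DecidableEq e] [Fintype w]
  [DecidableEq w] {ε : k} {Jw : Matrix w w k}

lemma eps_sq (h : IsForm ε Jw) : ε * ε = 1 := by
  rcases h.eps with rfl | rfl <;> ring

/-- product of isometries -/
lemma isom_mul {n : Type} [Fintype n] [DecidableEq n] {J x y : Matrix n n k}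
    (hx : xᵀ * J * x = J) (hy : yᵀ * J * y = J) : (x * y)ᵀ * J * (x * y) = J := by
  rw [transpose_mul]
  calc yᵀ * xᵀ * J * (x * y) = yᵀ * (xᵀ * J * x) * y := by simp only [Matrix.mul_assoc]
    _ = J := by rw [hx, hy]

lemma LJ_mul (a11 a12 : Matrix e e k) (a13 : Matrix e w k) (a21 a22 : Matrix e e k)
    (a23 : Matrix e w k) (a31 a32 : Matrix w e k) (a33 : Matrix w w k) :
    LJ e ε Jw * mk3 a11 a12 a13 a21 a22 a23 a31 a32 a33 =
      mk3 a21 a22 a23 (ε • a11) (ε • a12) (ε • a13) (Jw * a31) (Jw * a32) (Jw * a33) := by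
  rw [LJ, mk3_mul]
  simp only [Matrix.zero_mul, Matrix.one_mul, zero_add, add_zero, Matrix.smul_mul]

lemma isom_nLow (hJ : IsForm ε Jw) {A : Matrix e e k} {C : Matrix w e k}
    (h : A + ε • Aᵀ + Cᵀ * Jw * C = 0) :
    (nLow Jw A C)ᵀ * LJ e ε Jw * nLow Jw A C = LJ e ε Jw := by
  have h1 : ε • (ε • (Jw * C)) = Jw * C := by rw [smul_smul, eps_sq hJ, one_smul]
  rw [Matrix.mul_assoc, nLow, LJ_mul, mk3_transpose, mk3_mul, LJ]
  simp only [transpose_one, transpose_zero, Matrix.zero_mul, Matrix.one_mul, Matrix.mul_zero,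
    Matrix.mul_one, zero_add, add_zero, transpose_neg, transpose_mul, transpose_transpose,
    hJ.symm, Matrix.smul_mul, Matrix.mul_smul, smul_zero, smul_neg, h1, h,
    ← Matrix.mul_assoc, neg_add_cancel]

lemma isom_nUp (hJ : IsForm ε Jw) {B : Matrix e e k} {D : Matrix w e k}
    (h : B + ε • Bᵀ + ε • (Dᵀ * Jw * D) = 0) :
    (nUp ε Jw B D)ᵀ * LJ e ε Jw * nUp ε Jw B D = LJ e ε Jw := by
  have h1 : ∀ {l m : Type} (M : Matrix l m k), ε • (ε • M) = M := by
    intro l m M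
    rw [smul_smul, eps_sq hJ, one_smul]
  have h2 : Bᵀ + ε • B + Dᵀ * Jw * D = 0 := by
    have h3 := congrArg (fun M => ε • M) h
    simp only [smul_add, h1, smul_zero] at h3
    rw [← h3]
    abel
  rw [Matrix.mul_assoc, nUp, LJ_mul, mk3_transpose, mk3_mul, LJ]
  simp only [transpose_one, transpose_zero, Matrix.zero_mul, Matrix.one_mul, Matrix.mul_zero,
    Matrix.mul_one, zero_add, add_zero, transpose_neg, transpose_mul, transpose_transpose,
    hJ.symm, Matrix.smul_mul, Matrix.mul_smul, smul_zero,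
    smul_neg, h1, h2, transpose_smul, ← Matrix.mul_assoc, neg_add_cancel]

lemma isom_dg {α : Matrix e e k} (hα : α.det ≠ 0) {Y : Matrix w w k} (hY : Yᵀ * Jw * Y = Jw) :
    (dg α (αᵀ)⁻¹ Y)ᵀ * LJ e ε Jw * dg α (αᵀ)⁻¹ Y = LJ e ε Jw := by
  have hu : IsUnit α.det := isUnit_iff_ne_zero.mpr hα
  have hu' : IsUnit αᵀ.det := by rw [det_transpose]; exact hu
  have h1 : αᵀ * (αᵀ)⁻¹ = 1 := mul_nonsing_inv _ hu'
  have h2 : ((αᵀ)⁻¹)ᵀ * α = 1 := by
    rw [transpose_nonsing_inv, transpose_transpose, nonsing_inv_mul _ hu]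
  rw [Matrix.mul_assoc, dg, LJ_mul, mk3_transpose, mk3_mul, LJ]
  simp only [transpose_zero, Matrix.zero_mul, Matrix.mul_zero, zero_add, add_zero,
    Matrix.mul_smul, smul_zero, h1, h2, ← Matrix.mul_assoc, hY]

/-- the product of the three factors -/
lemma lev_prod (A B α α' : Matrix e e k) (C D : Matrix w e k) (Y : Matrix w w k) :
    nLow Jw A C * nUp ε Jw B D * dg α α' Y =
      mk3 α (B * α') (-(ε • (Dᵀ * Jw * Y)))
        (A * α) (A * B * α' + α' - Cᵀ * Jw * D * α')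
        (-(ε • (A * (Dᵀ * Jw * Y))) - Cᵀ * Jw * Y)
        (C * α) (C * B * α' + D * α') (-(ε • (C * (Dᵀ * Jw * Y))) + Y) := by
  rw [nLow, nUp, dg, mk3_mul, mk3_mul]
  simp only [Matrix.zero_mul, Matrix.one_mul, Matrix.mul_zero, Matrix.mul_one, zero_add, add_zero,
    Matrix.neg_mul, Matrix.mul_neg, Matrix.mul_smul, Matrix.smul_mul, Matrix.add_mul,
    Matrix.mul_assoc, sub_eq_add_neg]

end

end Pool.Agent.Helper19.CG
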