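import Pool.Agent.Helper97.CG.Skw
import Pool.Agent.Helper19.CG.Lev

set_option autoImplicit false

/-!
# Row W4D: an isometry from the base point and `Y`
-/

namespace Pool.Agent.Helper19.CG

open Matrix Pool.Agent.Helper97.CG

universe u

section

variable {k : Type u} [Field k] [CharZero k] {b r : ℕ} {d : Bool} {ε : k}
  {JN : Matrix (Fin r ⊕ Fin r) (Fin r ⊕ Fin r) k}

lemma bA_self (β : BI b r d → k) : bA ε JN β =
    skw ε (fun p => β (Sum.inl (Sum.inr p))) - (2⁻¹ : k) • ((bC β)ᵀ * JN * bC β) := by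
  have h1 : JN.map (algebraMap k k) = JN := by
    ext i j
    rfl
  rw [bA, h1]
  rfl

lemma bGam_self (β : BI b r d → k) : bGam ε JN β =
    bA ε JN (β ∘ Sum.swap) + ε • (bA ε JN β)ᵀ + (bC β)ᵀ * JN * bC (β ∘ Sum.swap) := by
  have h1 : JN.map (algebraMap k k) = JN := by
    ext i j
    rfl
  rw [bGam, h1]
  rfl

lemma cjc_transpose (hJ : IsForm ε JN) (C C' : Matrix (Fin r ⊕ Fin r) (Fin b) k) :
    (Cᵀ * JN * C')ᵀ = ε • (C'ᵀ * JN * C) := by
  rw [transpose_mul, transpose_mul, transpose_transpose, hJ.symm, Matrix.smul_mul,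
    Matrix.mul_smul, Matrix.mul_assoc]

lemma bA_rel (hs : IsSg ε d) (hJ : IsForm ε JN) (β : BI b r d → k) :
    bA ε JN β + ε • (bA ε JN β)ᵀ + (bC β)ᵀ * JN * bC β = 0 := by
  have h1 : ∀ M : Matrix (Fin b) (Fin b) k, ε • (ε • M) = M := by
    intro M
    rw [smul_smul, hs.sq, one_smul]
  have h2 : ((2 : k)⁻¹ + 2⁻¹) = 1 := by
    rw [← two_mul, mul_inv_cancel₀ two_ne_zero]
  rw [bA_self, transpose_sub, transpose_smul, skw_transpose hs, cjc_transpose hJ, smul_sub,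
    smul_neg, h1, smul_comm ε, h1]
  generalize (bC β)ᵀ * JN * bC β = M
  have h3 : M = (2⁻¹ : k) • M + (2⁻¹ : k) • M := by rw [← add_smul, h2, one_smul]
  nth_rewrite 3 [h3]
  abel

lemma bGam_rel (hs : IsSg ε d) (hJ : IsForm ε JN) (β : BI b r d → k) :
    bGam ε JN β + ε • (bGam ε JN β)ᵀ = -((bDel β)ᵀ * JN * bDel β) := by
  have h1 : ∀ M : Matrix (Fin b) (Fin b) k, ε • (ε • M) = M := by
    intro M
    rw [smul_smul, hs.sq, one_smul]
  have hA := bA_rel hs hJ β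
  have hA' := bA_rel hs hJ (β ∘ Sum.swap)
  rw [bGam_self, bDel, transpose_add, transpose_add, transpose_smul, transpose_transpose,
    cjc_transpose hJ, smul_add, smul_add, h1, h1, transpose_sub]
  simp only [Matrix.sub_mul, Matrix.mul_sub]
  generalize bA ε JN β = A at *
  generalize bA ε JN (β ∘ Sum.swap) = A' at *
  generalize (bC β)ᵀ * JN * bC β = M1 at *
  generalize (bC (β ∘ Sum.swap))ᵀ * JN * bC (β ∘ Sum.swap) = M2 at *
  generalize (bC β)ᵀ * JN * bC (β ∘ Sum.swap) = M3 at *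
  generalize (bC (β ∘ Sum.swap))ᵀ * JN * bC β = M4 at *
  have h3 : A' + ε • Aᵀ + M3 + (ε • A'ᵀ + A + M4) =
      (A + ε • Aᵀ + M1) + (A' + ε • A'ᵀ + M2) + -(M1 - M4 - (M3 - M2)) := by abel
  rw [h3, hA, hA', zero_add, zero_add]

end

theorem st_W4D {k : Type u} [Field k] [IsAlgClosed k] [CharZero k] (hL : ST_LEVC k) :
    ST_W4D k := by
  intro b r ε d JN hs hJ β Y hΓ hY y hy
  have hu : IsUnit (bGam ε JN β).det := isUnit_iff_ne_zero.mpr hΓ
  have hu' : IsUnit (bGam ε JN β)ᵀ.det := by rw [det_transpose]; exact hu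
  have h1 : ∀ M : Matrix (Fin b) (Fin b) k, ε • (ε • M) = M := by
    intro M
    rw [smul_smul, hs.sq, one_smul]
  have i1 : bGam ε JN β * (bGam ε JN β)⁻¹ = 1 := mul_nonsing_inv _ hu
  have i2 : (bGam ε JN β)⁻¹ * bGam ε JN β = 1 := nonsing_inv_mul _ hu
  have i3 : ((bGam ε JN β)ᵀ)⁻¹ * (bGam ε JN β)ᵀ = 1 := nonsing_inv_mul _ hu'
  have hA := bA_rel hs hJ β
  have hG := bGam_rel hs hJ β
  have hB : (bGam ε JN β)⁻¹ + ε • ((bGam ε JN β)⁻¹)ᵀ +
      ε • ((-(bDel β * (bGam ε JN β)⁻¹))ᵀ * JN * (-(bDel β * (bGam ε JN β)⁻¹))) = 0 := by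
    have h2 : (-(bDel β * (bGam ε JN β)⁻¹))ᵀ * JN * (-(bDel β * (bGam ε JN β)⁻¹)) =
        ((bGam ε JN β)⁻¹)ᵀ * ((bDel β)ᵀ * JN * bDel β) * (bGam ε JN β)⁻¹ := by
      rw [transpose_neg, transpose_mul, Matrix.neg_mul, Matrix.neg_mul, Matrix.mul_neg, neg_neg]
      simp only [Matrix.mul_assoc]
    have h3 : (bDel β)ᵀ * JN * bDel β = -(bGam ε JN β + ε • (bGam ε JN β)ᵀ) := by
      rw [hG, neg_neg]
    rw [h2, h3, Matrix.mul_neg, Matrix.mul_add, Matrix.neg_mul, Matrix.add_mul, Matrix.mul_assoc,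
      i1, Matrix.mul_one, Matrix.mul_smul, transpose_nonsing_inv, i3, Matrix.smul_mul,
      Matrix.one_mul, smul_neg, smul_add, h1]
    abel
  have hy1 : y = nLow JN (bA ε JN β) (bC β) *
      nUp ε JN (bGam ε JN β)⁻¹ (-(bDel β * (bGam ε JN β)⁻¹)) *
      dg (1 : Matrix (Fin b) (Fin b) k) ((1 : Matrix (Fin b) (Fin b) k)ᵀ)⁻¹ Y := by
    rw [hy, transpose_one, inv_one]
  obtain ⟨c1, c2, c3, c4, c5, c6, c7, c8⟩ := hL b (Fin r ⊕ Fin r) ε JN hJ (bA ε JN β)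
    (bGam ε JN β)⁻¹ 1 (bC β) (-(bDel β * (bGam ε JN β)⁻¹)) Y hA hB
    (by rw [det_one]; exact one_ne_zero) hY y hy1
  have e12 : b12 y = (bGam ε JN β)⁻¹ := by
    rw [c3, transpose_one, Matrix.mul_one] at c7
    exact c7
  have e32 : b32 y = bC (β ∘ Sum.swap) * (bGam ε JN β)⁻¹ := by
    rw [c3, transpose_one, Matrix.mul_one, c5, e12] at c8
    have h2 : bC (β ∘ Sum.swap) = bC β - bDel β := by rw [bDel]; abel
    rw [h2, Matrix.sub_mul, sub_eq_add_neg, ← c8]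
    abel
  have e22 : b22 y = bA ε JN (β ∘ Sum.swap) * (bGam ε JN β)⁻¹ := by
    have h2 := hy.trans (lev_prod _ _ _ _ _ _ _)
    have h3 : b22 y = bA ε JN β * (bGam ε JN β)⁻¹ * 1 + 1 -
        (bC β)ᵀ * JN * (-(bDel β * (bGam ε JN β)⁻¹)) * 1 := by
      rw [h2]; rfl
    have h4 : bA ε JN (β ∘ Sum.swap) = bA ε JN β + bGam ε JN β + (bC β)ᵀ * JN * bDel β := by
      have h5 := bGam_self (ε := ε) (JN := JN) β
      rw [h5, bDel, Matrix.mul_sub]
      generalize (bC β)ᵀ * JN * bC β = M1 at *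
      generalize (bC β)ᵀ * JN * bC (β ∘ Sum.swap) = M3 at *
      have h6 : bA ε JN β + (bA ε JN (β ∘ Sum.swap) + ε • (bA ε JN β)ᵀ + M3) + (M1 - M3) =
          (bA ε JN β + ε • (bA ε JN β)ᵀ + M1) + bA ε JN (β ∘ Sum.swap) := by abel
      rw [h6, hA, zero_add]
    rw [h3, h4, Matrix.add_mul, Matrix.add_mul, i1, Matrix.mul_one, Matrix.mul_one,
      Matrix.mul_neg, sub_neg_eq_add]
    simp only [Matrix.mul_assoc]
  have eC' : lC' y = bC (β ∘ Sum.swap) := by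
    rw [lC', e32, e12, nonsing_inv_nonsing_inv _ hu, Matrix.mul_assoc, i2, Matrix.mul_one]
  have eA' : lA' y = bA ε JN (β ∘ Sum.swap) := by
    rw [lA', e22, e12, nonsing_inv_nonsing_inv _ hu, Matrix.mul_assoc, i2, Matrix.mul_one]
  refine ⟨c1, c2, ?_, ?_, ?_, c6⟩
  · rw [c3, det_one]; exact one_ne_zero
  · rw [e12, det_nonsing_inv, Ring.inverse_eq_inv']
    exact inv_ne_zero hΓ
  · funext p
    rcases p with (p | p) | (p | p)
    · show lC y p.1 p.2 = _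
      rw [c5]
      rfl
    · show (lA y + (2⁻¹ : k) • ((lC y)ᵀ * JN * lC y)) p.1.1 p.1.2 = _
      rw [c4, c5, bA_self, sub_add_cancel, skw_free]
    · show lC' y p.1 p.2 = _
      rw [eC']
      rfl
    · show (lA' y + (2⁻¹ : k) • ((lC' y)ᵀ * JN * lC' y)) p.1.1 p.1.2 = _
      rw [eA', eC', bA_self, sub_add_cancel, skw_free]
      rfl

end Pool.Agent.Helper19.CG
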