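import Pool.Agent.Helper97.CG.Stmts

set_option autoImplicit false

/-!
# Row W4H: right multiplication by block diagonal and by swapping elements
-/

namespace Pool.Agent.Helper19.CG

open Matrix Pool.Agent.Helper97.CG

universe u

theorem st_W4H {k : Type u} [Field k] [IsAlgClosed k] [CharZero k] : ST_W4H k := by
  intro b r y h h' hN hh hh'
  have hu : IsUnit h.det := isUnit_iff_ne_zero.mpr hh
  have hu' : IsUnit h'.det := isUnit_iff_ne_zero.mpr hh'
  have hc : ∀ {l : Type} (M : Matrix l (Fin b) k) (N g : Matrix (Fin b) (Fin b) k),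
      IsUnit g.det → M * g * (N * g)⁻¹ = M * N⁻¹ := by
    intro l M N g hg
    rw [Matrix.mul_inv_rev, Matrix.mul_assoc, ← Matrix.mul_assoc g, mul_nonsing_inv _ hg,
      Matrix.one_mul]
  constructor
  · have hy : y * dg h h' hN = mk3 (b11 y * h) (b12 y * h') (b13 y * hN) (b21 y * h)
        (b22 y * h') (b23 y * hN) (b31 y * h) (b32 y * h') (b33 y * hN) := by
      conv_lhs => rw [← mk3_eta y]
      rw [dg, mk3_mul]
      simp only [Matrix.mul_zero, zero_add, add_zero]
    rw [hy]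
    have e3 : lC (mk3 (b11 y * h) (b12 y * h') (b13 y * hN) (b21 y * h)
        (b22 y * h') (b23 y * hN) (b31 y * h) (b32 y * h') (b33 y * hN)) = lC y :=
      hc (b31 y) (b11 y) h hu
    have e5 : lC' (mk3 (b11 y * h) (b12 y * h') (b13 y * hN) (b21 y * h)
        (b22 y * h') (b23 y * hN) (b31 y * h) (b32 y * h') (b33 y * hN)) = lC' y :=
      hc (b32 y) (b12 y) h' hu'
    refine ⟨rfl, rfl, e3, hc (b21 y) (b11 y) h hu, e5, hc (b22 y) (b12 y) h' hu', ?_, ?_⟩
    · rw [lY, e3, lY, Matrix.sub_mul, Matrix.mul_assoc]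
      rfl
    · rw [lY', e5, lY', Matrix.sub_mul, Matrix.mul_assoc]
      rfl
  · have hy : y * mk3 0 h' 0 h 0 0 0 0 hN = mk3 (b12 y * h) (b11 y * h') (b13 y * hN) (b22 y * h)
        (b21 y * h') (b23 y * hN) (b32 y * h) (b31 y * h') (b33 y * hN) := by
      conv_lhs => rw [← mk3_eta y]
      rw [mk3_mul]
      simp only [Matrix.mul_zero, zero_add, add_zero]
    rw [hy]
    have e3 : lC (mk3 (b12 y * h) (b11 y * h') (b13 y * hN) (b22 y * h)
        (b21 y * h') (b23 y * hN) (b32 y * h) (b31 y * h') (b33 y * hN)) = lC' y :=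
      hc (b32 y) (b12 y) h hu
    have e5 : lC' (mk3 (b12 y * h) (b11 y * h') (b13 y * hN) (b22 y * h)
        (b21 y * h') (b23 y * hN) (b32 y * h) (b31 y * h') (b33 y * hN)) = lC y :=
      hc (b31 y) (b11 y) h' hu'
    refine ⟨rfl, rfl, e3, hc (b22 y) (b12 y) h hu, e5, hc (b21 y) (b11 y) h' hu', ?_, ?_⟩
    · rw [lY, e3, lY', Matrix.sub_mul, Matrix.mul_assoc]
      rfl
    · rw [lY', e5, lY, Matrix.sub_mul, Matrix.mul_assoc]
      rfl

end Pool.Agent.Helper19.CG
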